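import Mathlib

set_option autoImplicit false

namespace Pool.Agent.H70Z.CdV

open Matrix

/-- A real symmetric matrix with a negative vector, which is nonnegative on a hyperplane,
has exactly one negative eigenvalue. -/
theorem card_neg_eigenvalues {V : Type} [Fintype V] [DecidableEq V] (M : Matrix V V ℝ)
    (h : M.IsHermitian) (x₀ : V → ℝ) (hx₀ : x₀ ⬝ᵥ (M *ᵥ x₀) < 0) (c : V → ℝ)
    (hc : ∀ x : V → ℝ, c ⬝ᵥ x = 0 → 0 ≤ x ⬝ᵥ (M *ᵥ x)) :
    (Finset.univ.filter (fun i => h.eigenvalues i < 0)).card = 1 := by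
  classical
  have hex : ∃ i, h.eigenvalues i < 0 := by
    by_contra hne
    push Not at hne
    have hp : M.PosSemidef := h.posSemidef_iff_eigenvalues_nonneg.mpr (fun i => hne i)
    have := (posSemidef_iff_dotProduct_mulVec.mp hp).2 x₀
    simp only [star_trivial] at this
    linarith
  obtain ⟨i, hi⟩ := hex
  rw [Finset.card_eq_one]
  refine ⟨i, ?_⟩
  ext j
  simp only [Finset.mem_filter, Finset.mem_univ, true_and, Finset.mem_singleton]
  refine ⟨fun hj => ?_, fun hj => hj ▸ hi⟩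
  by_contra hne
  set u : V → ℝ := ⇑(h.eigenvectorBasis i) with hu
  set w : V → ℝ := ⇑(h.eigenvectorBasis j) with hw
  have hon := h.eigenvectorBasis.orthonormal
  have huu : u ⬝ᵥ u = 1 := by
    have h1 := hon.1 i
    have h2 : inner ℝ (h.eigenvectorBasis i) (h.eigenvectorBasis i) = (1 : ℝ) := by
      rw [real_inner_self_eq_norm_sq, h1]; norm_num
    rw [EuclideanSpace.inner_eq_star_dotProduct] at h2
    simpa using h2
  have hww : w ⬝ᵥ w = 1 := by
    have h1 := hon.1 j
    have h2 : inner ℝ (h.eigenvectorBasis j) (h.eigenvectorBasis j) = (1 : ℝ) := by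
      rw [real_inner_self_eq_norm_sq, h1]; norm_num
    rw [EuclideanSpace.inner_eq_star_dotProduct] at h2
    simpa using h2
  have huw : u ⬝ᵥ w = 0 := by
    have h2 : inner ℝ (h.eigenvectorBasis j) (h.eigenvectorBasis i) = (0 : ℝ) := hon.2 hne
    rw [EuclideanSpace.inner_eq_star_dotProduct] at h2
    simpa using h2
  have hwu : w ⬝ᵥ u = 0 := by rw [dotProduct_comm]; exact huw
  have hMu : M *ᵥ u = h.eigenvalues i • u := h.mulVec_eigenvectorBasis i
  have hMw : M *ᵥ w = h.eigenvalues j • w := h.mulVec_eigenvectorBasis j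
  have key : ∀ a b : ℝ, (a • u + b • w) ⬝ᵥ (M *ᵥ (a • u + b • w)) =
      a ^ 2 * h.eigenvalues i + b ^ 2 * h.eigenvalues j := by
    intro a b
    simp only [mulVec_add, mulVec_smul, hMu, hMw, add_dotProduct, dotProduct_add,
      smul_dotProduct, dotProduct_smul, huu, hww, huw, hwu, smul_eq_mul]
    ring
  by_cases hcu : c ⬝ᵥ u = 0
  · have h1 := hc u hcu
    have h2 := key 1 0
    simp only [one_smul, zero_smul, add_zero] at h2
    rw [h2] at h1
    nlinarith
  · have h1 := hc ((c ⬝ᵥ w) • u + (-(c ⬝ᵥ u)) • w) (by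
      simp only [dotProduct_add, dotProduct_smul, smul_eq_mul]; ring)
    rw [key] at h1
    have h3 : 0 < (-(c ⬝ᵥ u)) ^ 2 := by
      have : (-(c ⬝ᵥ u)) ≠ 0 := neg_ne_zero.mpr hcu
      positivity
    have h4 : 0 ≤ (c ⬝ᵥ w) ^ 2 := sq_nonneg _
    nlinarith

end Pool.Agent.H70Z.CdV
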