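import Mathlib
import Pool.Agent.H70Z.CdVEig

set_option autoImplicit false

namespace Pool.Agent.H70Z.CdV

open Matrix

/-- The integer matrix of rank five. -/
def M0 : Matrix (Fin 12) (Fin 12) ℤ :=
  !![117, -18, 0, -144, -18, -153, -108, -108, 0, 0, 0, 0;
     -18, 72, -120, -24, -108, -18, -108, -108, 0, 0, 0, 0;
     0, -120, 100, -28, -24, -144, 0, 0, -108, -108, 0, 0;
     -144, -24, -28, 100, -120, 0, 0, 0, -108, -108, 0, 0;
     -18, -108, -24, -120, 72, -18, 0, 0, 0, 0, -108, -108;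
     -153, -18, -144, 0, -18, 117, 0, 0, 0, 0, -108, -108;
     -108, -108, 0, 0, 0, 0, 117, -18, 0, -144, -18, -153;
     -108, -108, 0, 0, 0, 0, -18, 72, -120, -24, -108, -18;
     0, 0, -108, -108, 0, 0, 0, -120, 100, -28, -24, -144;
     0, 0, -108, -108, 0, 0, -144, -24, -28, 100, -120, 0;
     0, 0, 0, 0, -108, -108, -18, -108, -24, -120, 72, -18;
     0, 0, 0, 0, -108, -108, -153, -18, -144, 0, -18, 117]

/-- Coordinates of the twelve vectors. -/
def W0 : Matrix (Fin 5) (Fin 12) ℤ :=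
  !![3, 3, 0, 0, 0, 0, -1, -1, 2, 2, 2, 2;
     0, 0, 3, 3, 0, 0, 2, 2, -1, -1, 2, 2;
     0, 0, 0, 0, 3, 3, 2, 2, 2, 2, -1, -1;
     9, -6, 8, -8, 6, -9, 0, 0, 0, 0, 0, 0;
     0, 0, 0, 0, 0, 0, 9, -6, 8, -8, 6, -9]

theorem M0_symm : ∀ i j, M0 i j = M0 j i := by decide +kernel

theorem M0_nonpos : ∀ i j, i ≠ j → M0 i j ≤ 0 := by decide +kernel

theorem M0_eq : ∀ i j, M0 i j = 12 * (W0 0 i * W0 0 j + W0 1 i * W0 1 j + W0 2 i * W0 2 j)
    + W0 3 i * W0 3 j + W0 4 i * W0 4 j - 72 := by decide +kernel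

theorem W0_sum : ∀ j, W0 0 j + W0 1 j + W0 2 j = 3 := by decide +kernel

/-- The graph: distinct vertices are adjacent when the entry of `M0` is nonzero. -/
def G0 : SimpleGraph (Fin 12) where
  Adj v w := v ≠ w ∧ M0 v w ≠ 0
  symm := ⟨fun v w h => ⟨h.1.symm, by rw [M0_symm]; exact h.2⟩⟩
  loopless := ⟨fun v h => h.1 rfl⟩

instance : DecidableRel G0.Adj := fun v w => inferInstanceAs (Decidable (v ≠ w ∧ M0 v w ≠ 0))

/-- Non-adjacent distinct vertices. -/
def H (v w : Fin 12) : Prop := v ≠ w ∧ M0 v w = 0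

instance : DecidableRel H := fun v w => inferInstanceAs (Decidable (v ≠ w ∧ M0 v w = 0))

theorem H_symm {v w : Fin 12} (h : H v w) : H w v := ⟨h.1.symm, by rw [M0_symm]; exact h.2⟩

theorem deg1 : ∀ a : Fin 12, (Finset.univ.filter (fun w => H a w)).card ≤ 5 := by
  decide +kernel

theorem deg2 : ∀ a b : Fin 12, a ≠ b →
    (Finset.univ.filter (fun w => H a w ∧ H b w)).card ≤ 4 := by
  decide +kernel

theorem deg3 : ∀ a b c : Fin 12, a ≠ b → a ≠ c → b ≠ c →
    (Finset.univ.filter (fun w => H a w ∧ H b w ∧ H c w)).card ≤ 2 := by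
  decide +kernel

theorem bic_aux (X Y : Finset (Fin 12)) (hX : X.Nonempty)
    (h : ∀ x ∈ X, ∀ y ∈ Y, H x y) :
    Y.card ≤ 5 ∧ (2 ≤ X.card → Y.card ≤ 4) ∧ (3 ≤ X.card → Y.card ≤ 2) := by
  refine ⟨?_, fun h2 => ?_, fun h3 => ?_⟩
  · obtain ⟨a, ha⟩ := hX
    refine le_trans (Finset.card_le_card ?_) (deg1 a)
    intro y hy
    simp only [Finset.mem_filter, Finset.mem_univ, true_and]
    exact h a ha y hy
  · obtain ⟨a, ha, b, hb, hab⟩ := Finset.one_lt_card.mp (show 1 < X.card by omega)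
    refine le_trans (Finset.card_le_card ?_) (deg2 a b hab)
    intro y hy
    simp only [Finset.mem_filter, Finset.mem_univ, true_and]
    exact ⟨h a ha y hy, h b hb y hy⟩
  · obtain ⟨a, b, c, ha, hb, hc, hab, hac, hbc⟩ :=
      Finset.two_lt_card_iff.mp (show 2 < X.card by omega)
    refine le_trans (Finset.card_le_card ?_) (deg3 a b c hab hac hbc)
    intro y hy
    simp only [Finset.mem_filter, Finset.mem_univ, true_and]
    exact ⟨h a ha y hy, h b hb y hy, h c hc y hy⟩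

theorem biclique (X Y : Finset (Fin 12)) (hX : X.Nonempty) (hY : Y.Nonempty)
    (h : ∀ x ∈ X, ∀ y ∈ Y, H x y) : X.card + Y.card ≤ 6 := by
  have h1 := bic_aux X Y hX h
  have h2 := bic_aux Y X hY (fun y hy x hx => H_symm (h x hx y hy))
  have h3 := hX.card_pos
  have h4 := hY.card_pos
  omega

theorem connected (S : Finset (Fin 12)) (hS : S.card < 6) :
    (G0.induce ((S : Set (Fin 12))ᶜ)).Connected := by
  classical
  have hne : ∃ v : Fin 12, v ∉ S := by
    by_contra hc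
    push Not at hc
    have : S = Finset.univ := Finset.eq_univ_iff_forall.mpr hc
    rw [this] at hS
    simp at hS
  obtain ⟨v₀, hv₀⟩ := hne
  have : Nonempty ((S : Set (Fin 12))ᶜ : Set (Fin 12)) := ⟨⟨v₀, by simpa using hv₀⟩⟩
  refine ⟨fun u v => ?_⟩
  by_contra huv
  set X : Finset (Fin 12) := Finset.univ.filter (fun w => ∃ hw : w ∈ (S : Set (Fin 12))ᶜ,
    (G0.induce ((S : Set (Fin 12))ᶜ)).Reachable u ⟨w, hw⟩) with hX
  set Y : Finset (Fin 12) := Finset.univ.filter (fun w => w ∉ S ∧ w ∉ X) with hY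
  have huX : u.1 ∈ X := by
    simp only [hX, Finset.mem_filter, Finset.mem_univ, true_and]
    exact ⟨u.2, SimpleGraph.Reachable.refl _⟩
  have hvY : v.1 ∈ Y := by
    simp only [hY, Finset.mem_filter, Finset.mem_univ, true_and]
    refine ⟨fun hv => v.2 hv, ?_⟩
    simp only [hX, Finset.mem_filter, Finset.mem_univ, true_and]
    rintro ⟨_, hr⟩
    exact huv hr
  have hb := biclique X Y ⟨_, huX⟩ ⟨_, hvY⟩ (by
    intro x hx y hy
    simp only [hY, Finset.mem_filter, Finset.mem_univ, true_and] at hy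
    have hne : x ≠ y := fun e => hy.2 (e ▸ hx)
    refine ⟨hne, ?_⟩
    by_contra hM
    apply hy.2
    simp only [hX, Finset.mem_filter, Finset.mem_univ, true_and] at hx ⊢
    obtain ⟨hxS, hr⟩ := hx
    refine ⟨by simpa using hy.1, hr.trans (SimpleGraph.Adj.reachable ?_)⟩
    exact (⟨hne, hM⟩ : G0.Adj x y))
  have hcover : (Finset.univ : Finset (Fin 12)) ⊆ S ∪ (X ∪ Y) := by
    intro w _
    simp only [Finset.mem_union]
    by_cases h1 : w ∈ S
    · exact Or.inl h1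
    · by_cases h2 : w ∈ X
      · exact Or.inr (Or.inl h2)
      · refine Or.inr (Or.inr ?_)
        simp only [hY, Finset.mem_filter, Finset.mem_univ, true_and]
        exact ⟨h1, h2⟩
  have h1 := Finset.card_le_card hcover
  have h2 := Finset.card_union_le S (X ∪ Y)
  have h3 := Finset.card_union_le X Y
  simp only [Finset.card_univ, Fintype.card_fin] at h1
  omega

/-- The real matrix. -/
noncomputable def MR : Matrix (Fin 12) (Fin 12) ℝ := fun i j => (M0 i j : ℝ)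

/-- The real coordinates. -/
noncomputable def WR : Matrix (Fin 5) (Fin 12) ℝ := fun i j => (W0 i j : ℝ)

theorem MR_herm : MR.IsHermitian := by
  ext i j
  simp only [MR, conjTranspose_apply, star_trivial]
  rw [M0_symm]

theorem MR_mulVec (x : Fin 12 → ℝ) (i : Fin 12) :
    (MR *ᵥ x) i = 12 * (WR 0 i * (WR *ᵥ x) 0 + WR 1 i * (WR *ᵥ x) 1 + WR 2 i * (WR *ᵥ x) 2)
      + WR 3 i * (WR *ᵥ x) 3 + WR 4 i * (WR *ᵥ x) 4
      - 24 * ((WR *ᵥ x) 0 + (WR *ᵥ x) 1 + (WR *ᵥ x) 2) := by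
  simp only [mulVec, dotProduct, Finset.mul_sum, ← Finset.sum_add_distrib,
    ← Finset.sum_sub_distrib]
  refine Finset.sum_congr rfl fun j _ => ?_
  have h1 : (M0 i j : ℝ) = 12 * (W0 0 i * W0 0 j + W0 1 i * W0 1 j + W0 2 i * W0 2 j)
    + W0 3 i * W0 3 j + W0 4 i * W0 4 j - 72 := by exact_mod_cast M0_eq i j
  have h2 : (W0 0 j : ℝ) + W0 1 j + W0 2 j = 3 := by exact_mod_cast W0_sum j
  simp only [MR, WR]
  rw [h1]
  linear_combination (24 * x j) * h2

theorem MR_form (x : Fin 12 → ℝ) :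
    x ⬝ᵥ (MR *ᵥ x) = 12 * ((WR *ᵥ x) 0 ^ 2 + (WR *ᵥ x) 1 ^ 2 + (WR *ᵥ x) 2 ^ 2)
      + (WR *ᵥ x) 3 ^ 2 + (WR *ᵥ x) 4 ^ 2
      - 24 * ((WR *ᵥ x) 0 + (WR *ᵥ x) 1 + (WR *ᵥ x) 2) * ((fun _ => (1 : ℝ)) ⬝ᵥ x) := by
  have e : ∀ k : Fin 5, ∑ i, x i * WR k i = (WR *ᵥ x) k := by
    intro k
    simp only [mulVec, dotProduct]
    exact Finset.sum_congr rfl fun j _ => mul_comm _ _
  have e1 : ∑ i, x i = (fun _ => (1 : ℝ)) ⬝ᵥ x := by simp [dotProduct]
  set a := WR *ᵥ x with ha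
  calc x ⬝ᵥ (MR *ᵥ x) = ∑ i, x i * (MR *ᵥ x) i := rfl
    _ = ∑ i, (12 * a 0 * (x i * WR 0 i) + 12 * a 1 * (x i * WR 1 i) + 12 * a 2 * (x i * WR 2 i)
          + a 3 * (x i * WR 3 i) + a 4 * (x i * WR 4 i) - 24 * (a 0 + a 1 + a 2) * x i) := by
        refine Finset.sum_congr rfl fun i _ => ?_
        rw [MR_mulVec]
        ring
    _ = _ := by
        simp only [Finset.sum_sub_distrib, Finset.sum_add_distrib, ← Finset.mul_sum, e, e1]
        ring

theorem MR_one_neg (h : MR.IsHermitian) :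
    (Finset.univ.filter (fun i => h.eigenvalues i < 0)).card = 1 := by
  refine card_neg_eigenvalues MR h (fun _ => 1) ?_ (fun _ => 1) ?_
  · simp only [dotProduct, mulVec, MR, mul_one, one_mul]
    have : (∑ i : Fin 12, ∑ j : Fin 12, M0 i j) < 0 := by decide +kernel
    exact_mod_cast this
  · intro x hx
    rw [MR_form, hx]
    nlinarith [sq_nonneg ((WR *ᵥ x) 0), sq_nonneg ((WR *ᵥ x) 1), sq_nonneg ((WR *ᵥ x) 2),
      sq_nonneg ((WR *ᵥ x) 3), sq_nonneg ((WR *ᵥ x) 4)]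

theorem MR_corank : 7 ≤ Module.finrank ℝ (LinearMap.ker (Matrix.toLin' MR)) := by
  have h1 : LinearMap.ker (Matrix.toLin' WR) ≤ LinearMap.ker (Matrix.toLin' MR) := by
    intro x hx
    simp only [LinearMap.mem_ker, Matrix.toLin'_apply] at hx ⊢
    ext i
    rw [MR_mulVec, hx]
    simp
  have h2 := Submodule.finrank_mono h1
  have h3 := (Matrix.toLin' WR).finrank_range_add_finrank_ker
  have h4 : Module.finrank ℝ (LinearMap.range (Matrix.toLin' WR)) ≤ 5 := by
    have := (LinearMap.range (Matrix.toLin' WR)).finrank_le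
    simpa using this
  have h5 : Module.finrank ℝ (Fin 12 → ℝ) = 12 := by simp
  omega

end Pool.Agent.H70Z.CdV
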