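import Mathlib
import Pool.Agent.H70Z.CdVGraph

set_option autoImplicit false

namespace Pool.Agent.H70Z.CdV

open Matrix

/-- The sign pattern condition that is used: zero exactly on the non-edges. -/
structure Pat (M : Matrix (Fin 12) (Fin 12) ℝ) : Prop where
  ne : ∀ i j, G0.Adj i j → M i j ≠ 0
  eq : ∀ i j, H i j → M i j = 0

/-- The vector on the pair `p, p'` killed by the row `b`. -/
noncomputable def yh (M : Matrix (Fin 12) (Fin 12) ℝ) (p p' b : Fin 12) : Fin 12 → ℝ :=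
  M b p' • Pi.single p (1 : ℝ) - M b p • Pi.single p' (1 : ℝ)

theorem mulVec_yh (M : Matrix (Fin 12) (Fin 12) ℝ) (p p' b g : Fin 12) :
    (M *ᵥ yh M p p' b) g = M b p' * M g p - M b p * M g p' := by
  simp [yh, mulVec_sub, mulVec_smul]

theorem yh_supp (M : Matrix (Fin 12) (Fin 12) ℝ) (p p' b v : Fin 12) (h1 : v ≠ p) (h2 : v ≠ p') :
    yh M p p' b v = 0 := by
  simp [yh, h1, h2]

theorem yh_fst (M : Matrix (Fin 12) (Fin 12) ℝ) (p p' b : Fin 12) (h : p ≠ p') :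
    yh M p p' b p = M b p' := by
  simp [yh, h]

theorem yh_snd (M : Matrix (Fin 12) (Fin 12) ℝ) (p p' b : Fin 12) (h : p ≠ p') :
    yh M p p' b p' = - M b p := by
  simp [yh, h.symm]

theorem row_eq (M : Matrix (Fin 12) (Fin 12) ℝ) (x : Fin 12 → ℝ) (r : Fin 12)
    (T : Finset (Fin 12)) (h : ∀ v, v ∉ T → M r v * x v = 0) :
    (M *ᵥ x) r = ∑ v ∈ T, M r v * x v := by
  simp only [mulVec, dotProduct]
  exact (Finset.sum_subset (Finset.subset_univ T) (fun v _ hv => h v hv)).symm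

/-- A nonzero kernel vector vanishing on six prescribed coordinates. -/
theorem exists_ker (M : Matrix (Fin 12) (Fin 12) ℝ)
    (hk : 7 ≤ Module.finrank ℝ (LinearMap.ker (Matrix.toLin' M))) (s : Fin 6 → Fin 12) :
    ∃ x : Fin 12 → ℝ, x ≠ 0 ∧ M *ᵥ x = 0 ∧ ∀ i, x (s i) = 0 := by
  let f : LinearMap.ker (Matrix.toLin' M) →ₗ[ℝ] (Fin 6 → ℝ) :=
    (LinearMap.funLeft ℝ ℝ s).comp (LinearMap.ker (Matrix.toLin' M)).subtype
  have h6 : Module.finrank ℝ (Fin 6 → ℝ) < Module.finrank ℝ (LinearMap.ker (Matrix.toLin' M)) := by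
    have : Module.finrank ℝ (Fin 6 → ℝ) = 6 := by simp
    omega
  have hne := LinearMap.ker_ne_bot_of_finrank_lt (f := f) h6
  obtain ⟨x, hx, hx0⟩ := Submodule.exists_mem_ne_zero_of_ne_bot hne
  refine ⟨x.1, fun h => hx0 (Subtype.ext h), ?_, fun i => ?_⟩
  · have := x.2
    simpa only [LinearMap.mem_ker, Matrix.toLin'_apply] using this
  · have := congrFun (LinearMap.mem_ker.mp hx) i
    simpa [f] using this

/-- The main step: the two pairs `p, p'` and `q, q'` span planes with a common line. -/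
theorem rel (M : Matrix (Fin 12) (Fin 12) ℝ) (hM : Pat M)
    (hk : 7 ≤ Module.finrank ℝ (LinearMap.ker (Matrix.toLin' M)))
    (p p' q q' b₁ b₂ r r' c d g₁ g₂ : Fin 12) (s : Fin 6 → Fin 12)
    (hcov : ∀ v, v = p ∨ v = p' ∨ v = q ∨ v = q' ∨ v = c ∨ v = d ∨ ∃ i, s i = v)
    (hpp : p ≠ p') (hqq : q ≠ q') (hpq : p ≠ q) (hpq' : p ≠ q') (hp'q : p' ≠ q) (hp'q' : p' ≠ q')
    (hr : H r p ∧ H r p' ∧ H r q ∧ H r q' ∧ H r c ∧ G0.Adj r d)
    (hr' : H r' p ∧ H r' p' ∧ H r' q ∧ H r' q' ∧ G0.Adj r' c)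
    (hb₁ : G0.Adj b₁ p ∧ G0.Adj b₁ p' ∧ H b₁ q ∧ H b₁ q')
    (hb₂ : G0.Adj b₂ q ∧ G0.Adj b₂ q' ∧ H b₂ p ∧ H b₂ p')
    (hg₁ : (H g₁ p ∧ G0.Adj g₁ p') ∨ (H g₁ p' ∧ G0.Adj g₁ p))
    (hg₂ : (H g₂ q ∧ G0.Adj g₂ q') ∨ (H g₂ q' ∧ G0.Adj g₂ q)) :
    ∃ t : ℝ, t ≠ 0 ∧ M *ᵥ (t • yh M q q' b₂) = M *ᵥ yh M p p' b₁ := by
  obtain ⟨x, hx0, hx, hs⟩ := exists_ker M hk s
  have hd : x d = 0 := by
    have h1 := row_eq M x r {d} (by
      intro v hv
      simp only [Finset.mem_singleton] at hv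
      rcases hcov v with h | h | h | h | h | h | ⟨i, h⟩
      · rw [h, hM.eq _ _ hr.1, zero_mul]
      · rw [h, hM.eq _ _ hr.2.1, zero_mul]
      · rw [h, hM.eq _ _ hr.2.2.1, zero_mul]
      · rw [h, hM.eq _ _ hr.2.2.2.1, zero_mul]
      · rw [h, hM.eq _ _ hr.2.2.2.2.1, zero_mul]
      · exact absurd h hv
      · rw [← h, hs i, mul_zero])
    rw [hx] at h1
    simp only [Pi.zero_apply, Finset.sum_singleton] at h1
    exact (mul_eq_zero.mp h1.symm).resolve_left (hM.ne _ _ hr.2.2.2.2.2)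
  have hc : x c = 0 := by
    have h1 := row_eq M x r' {c} (by
      intro v hv
      simp only [Finset.mem_singleton] at hv
      rcases hcov v with h | h | h | h | h | h | ⟨i, h⟩
      · rw [h, hM.eq _ _ hr'.1, zero_mul]
      · rw [h, hM.eq _ _ hr'.2.1, zero_mul]
      · rw [h, hM.eq _ _ hr'.2.2.1, zero_mul]
      · rw [h, hM.eq _ _ hr'.2.2.2.1, zero_mul]
      · exact absurd h hv
      · rw [h, hd, mul_zero]
      · rw [← h, hs i, mul_zero])
    rw [hx] at h1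
    simp only [Pi.zero_apply, Finset.sum_singleton] at h1
    exact (mul_eq_zero.mp h1.symm).resolve_left (hM.ne _ _ hr'.2.2.2.2)
  have hsupp : ∀ v, v ≠ p → v ≠ p' → v ≠ q → v ≠ q' → x v = 0 := by
    intro v h1 h2 h3 h4
    rcases hcov v with h | h | h | h | h | h | ⟨i, h⟩
    · exact absurd h h1
    · exact absurd h h2
    · exact absurd h h3
    · exact absurd h h4
    · rw [h, hc]
    · rw [h, hd]
    · rw [← h, hs i]
  have e1 : M b₁ p * x p + M b₁ p' * x p' = 0 := by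
    have h1 := row_eq M x b₁ {p, p'} (by
      intro v hv
      simp only [Finset.mem_insert, Finset.mem_singleton, not_or] at hv
      by_cases h3 : v = q
      · rw [h3, hM.eq _ _ hb₁.2.2.1, zero_mul]
      by_cases h4 : v = q'
      · rw [h4, hM.eq _ _ hb₁.2.2.2, zero_mul]
      rw [hsupp v hv.1 hv.2 h3 h4, mul_zero])
    rw [hx, Finset.sum_pair hpp] at h1
    exact h1.symm
  have e2 : M b₂ q * x q + M b₂ q' * x q' = 0 := by
    have h1 := row_eq M x b₂ {q, q'} (by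
      intro v hv
      simp only [Finset.mem_insert, Finset.mem_singleton, not_or] at hv
      by_cases h3 : v = p
      · rw [h3, hM.eq _ _ hb₂.2.2.1, zero_mul]
      by_cases h4 : v = p'
      · rw [h4, hM.eq _ _ hb₂.2.2.2, zero_mul]
      rw [hsupp v h3 h4 hv.1 hv.2, mul_zero])
    rw [hx, Finset.sum_pair hqq] at h1
    exact h1.symm
  have n1 := hM.ne _ _ hb₁.1
  have n2 := hM.ne _ _ hb₁.2.1
  have n3 := hM.ne _ _ hb₂.1
  have n4 := hM.ne _ _ hb₂.2.1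
  set α : ℝ := x p / M b₁ p' with hα
  set β : ℝ := x q / M b₂ q' with hβ
  have hxe : x = α • yh M p p' b₁ + β • yh M q q' b₂ := by
    ext v
    simp only [Pi.add_apply, Pi.smul_apply, smul_eq_mul]
    by_cases h1 : v = p
    · rw [h1, yh_fst _ _ _ _ hpp, yh_supp _ _ _ _ _ hpq hpq', hα]
      field_simp
      ring
    by_cases h2 : v = p'
    · rw [h2, yh_snd _ _ _ _ hpp, yh_supp _ _ _ _ _ hp'q hp'q', hα]
      field_simp
      linear_combination e1
    by_cases h3 : v = q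
    · rw [h3, yh_fst _ _ _ _ hqq, yh_supp _ _ _ _ _ hpq.symm hp'q.symm, hβ]
      field_simp
      ring
    by_cases h4 : v = q'
    · rw [h4, yh_snd _ _ _ _ hqq, yh_supp _ _ _ _ _ hpq'.symm hp'q'.symm, hβ]
      field_simp
      linear_combination e2
    rw [hsupp v h1 h2 h3 h4, yh_supp _ _ _ _ _ h1 h2, yh_supp _ _ _ _ _ h3 h4]
    simp
  have hrel : α • (M *ᵥ yh M p p' b₁) + β • (M *ᵥ yh M q q' b₂) = 0 := by
    rw [← mulVec_smul, ← mulVec_smul, ← mulVec_add, ← hxe, hx]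
  have hy1 : (M *ᵥ yh M p p' b₁) g₁ ≠ 0 := by
    rw [mulVec_yh]
    rcases hg₁ with h | h
    · rw [hM.eq _ _ h.1, mul_zero, zero_sub]
      exact neg_ne_zero.mpr (mul_ne_zero n1 (hM.ne _ _ h.2))
    · rw [hM.eq _ _ h.1, mul_zero, sub_zero]
      exact mul_ne_zero n2 (hM.ne _ _ h.2)
  have hy2 : (M *ᵥ yh M q q' b₂) g₂ ≠ 0 := by
    rw [mulVec_yh]
    rcases hg₂ with h | h
    · rw [hM.eq _ _ h.1, mul_zero, zero_sub]
      exact neg_ne_zero.mpr (mul_ne_zero n3 (hM.ne _ _ h.2))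
    · rw [hM.eq _ _ h.1, mul_zero, sub_zero]
      exact mul_ne_zero n4 (hM.ne _ _ h.2)
  have hα0 : α ≠ 0 := by
    intro h0
    have h1 := congrFun hrel g₂
    simp only [h0, zero_smul, zero_add, Pi.smul_apply, smul_eq_mul, Pi.zero_apply] at h1
    have h2 : β = 0 := (mul_eq_zero.mp h1).resolve_right hy2
    apply hx0
    rw [hxe, h0, h2]
    simp
  have hβ0 : β ≠ 0 := by
    intro h0
    have h1 := congrFun hrel g₁
    simp only [h0, zero_smul, add_zero, Pi.smul_apply, smul_eq_mul, Pi.zero_apply] at h1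
    exact hα0 ((mul_eq_zero.mp h1).resolve_right hy1)
  refine ⟨-β / α, div_ne_zero (neg_ne_zero.mpr hβ0) hα0, ?_⟩
  ext v
  have h1 := congrFun hrel v
  simp only [Pi.add_apply, Pi.smul_apply, smul_eq_mul, Pi.zero_apply] at h1
  rw [mulVec_smul]
  simp only [Pi.smul_apply, smul_eq_mul]
  field_simp
  linear_combination -h1

/-- Index of the pair that contains a vertex. -/
def grp (v : Fin 12) : ℕ := v.val / 2

theorem grp_H : ∀ v w : Fin 12, grp v < 3 → 3 ≤ grp w → grp w ≠ grp v + 3 →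
    ¬ (v = w ∨ G0.Adj v w) ∧ ¬ (w = v ∨ G0.Adj w v) := by
  decide +kernel

theorem yh_grp (M : Matrix (Fin 12) (Fin 12) ℝ) (p p' b v : Fin 12) (k : ℕ) (hp : grp p = k)
    (hp' : grp p' = k) (t : ℝ) (h : (t • yh M p p' b) v ≠ 0) : grp v = k := by
  by_contra hne
  apply h
  have h1 : v ≠ p := fun e => hne (e ▸ hp)
  have h2 : v ≠ p' := fun e => hne (e ▸ hp')
  simp [yh_supp M p p' b v h1 h2]

/-- Every symmetric matrix with the pattern of `G0` and corank at least seven fails the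
Strong Arnold Property. -/
theorem stress (M : Matrix (Fin 12) (Fin 12) ℝ) (hM : Pat M)
    (hk : 7 ≤ Module.finrank ℝ (LinearMap.ker (Matrix.toLin' M))) :
    ∃ X : Matrix (Fin 12) (Fin 12) ℝ, X.IsSymm ∧
      (∀ i j, (i = j ∨ G0.Adj i j) → X i j = 0) ∧ M * X = 0 ∧ X ≠ 0 := by
  obtain ⟨t₂, ht₂, e₂⟩ := rel M hM hk 0 1 2 3 6 8 11 10 9 4 2 0 ![5, 6, 7, 8, 10, 11]
    (by decide +kernel) (by decide) (by decide) (by decide) (by decide) (by decide) (by decide)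
    (by decide +kernel) (by decide +kernel) (by decide +kernel) (by decide +kernel)
    (by decide +kernel) (by decide +kernel)
  obtain ⟨t₃, ht₃, e₃⟩ := rel M hM hk 0 1 4 5 6 10 8 9 6 2 2 3 ![3, 7, 8, 9, 10, 11]
    (by decide +kernel) (by decide) (by decide) (by decide) (by decide) (by decide) (by decide)
    (by decide +kernel) (by decide +kernel) (by decide +kernel) (by decide +kernel)
    (by decide +kernel) (by decide +kernel)
  obtain ⟨s₂, hs₂, f₂⟩ := rel M hM hk 6 7 8 9 0 2 5 4 3 10 8 6 ![11, 0, 1, 2, 4, 5]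
    (by decide +kernel) (by decide) (by decide) (by decide) (by decide) (by decide) (by decide)
    (by decide +kernel) (by decide +kernel) (by decide +kernel) (by decide +kernel)
    (by decide +kernel) (by decide +kernel)
  obtain ⟨s₃, hs₃, f₃⟩ := rel M hM hk 6 7 10 11 0 4 2 3 0 8 8 9 ![9, 1, 2, 3, 4, 5]
    (by decide +kernel) (by decide) (by decide) (by decide) (by decide) (by decide) (by decide)
    (by decide +kernel) (by decide +kernel) (by decide +kernel) (by decide +kernel)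
    (by decide +kernel) (by decide +kernel)
  set y₁ : Fin 12 → ℝ := (1 : ℝ) • yh M 0 1 6 with hy₁
  set y₂ : Fin 12 → ℝ := t₂ • yh M 2 3 8 with hy₂
  set y₃ : Fin 12 → ℝ := t₃ • yh M 4 5 10 with hy₃
  set z₁ : Fin 12 → ℝ := (1 : ℝ) • yh M 6 7 0 with hz₁
  set z₂ : Fin 12 → ℝ := s₂ • yh M 8 9 2 with hz₂
  set z₃ : Fin 12 → ℝ := s₃ • yh M 10 11 4 with hz₃
  have e₂' : M *ᵥ y₂ = M *ᵥ y₁ := by rw [e₂, hy₁, one_smul]
  have e₃' : M *ᵥ y₃ = M *ᵥ y₁ := by rw [e₃, hy₁, one_smul]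
  have f₂' : M *ᵥ z₂ = M *ᵥ z₁ := by rw [f₂, hz₁, one_smul]
  have f₃' : M *ᵥ z₃ = M *ᵥ z₁ := by rw [f₃, hz₁, one_smul]
  have gy₁ : ∀ v, y₁ v ≠ 0 → grp v = 0 := fun v => yh_grp M 0 1 6 v 0 rfl rfl 1
  have gy₂ : ∀ v, y₂ v ≠ 0 → grp v = 1 := fun v => yh_grp M 2 3 8 v 1 rfl rfl t₂
  have gy₃ : ∀ v, y₃ v ≠ 0 → grp v = 2 := fun v => yh_grp M 4 5 10 v 2 rfl rfl t₃
  have gz₁ : ∀ v, z₁ v ≠ 0 → grp v = 3 := fun v => yh_grp M 6 7 0 v 3 rfl rfl 1
  have gz₂ : ∀ v, z₂ v ≠ 0 → grp v = 4 := fun v => yh_grp M 8 9 2 v 4 rfl rfl s₂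
  have gz₃ : ∀ v, z₃ v ≠ 0 → grp v = 5 := fun v => yh_grp M 10 11 4 v 5 rfl rfl s₃
  have zero : ∀ (y z : Fin 12 → ℝ) (a b : ℕ), (∀ v, y v ≠ 0 → grp v = a) →
      (∀ v, z v ≠ 0 → grp v = b) → a < 3 → 3 ≤ b → b ≠ a + 3 →
      ∀ v w, ((v = w ∨ G0.Adj v w) ∨ (w = v ∨ G0.Adj w v)) → y v * z w = 0 := by
    intro y z a b hy hz ha hb hab v w hvw
    by_contra hne
    have h1 := hy v (left_ne_zero_of_mul hne)
    have h2 := hz w (right_ne_zero_of_mul hne)
    have h3 := grp_H v w (by omega) (by omega) (by omega)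
    rcases hvw with h | h
    · exact h3.1 h
    · exact h3.2 h
  refine ⟨vecMulVec y₁ (z₂ - z₃) + vecMulVec y₂ (z₃ - z₁) + vecMulVec y₃ (z₁ - z₂)
      + (vecMulVec (z₂ - z₃) y₁ + vecMulVec (z₃ - z₁) y₂ + vecMulVec (z₁ - z₂) y₃),
      ?_, ?_, ?_, ?_⟩
  · ext i j
    simp only [transpose_apply, Matrix.add_apply, vecMulVec_apply, Pi.sub_apply]
    ring
  · intro i j hij
    simp only [Matrix.add_apply, vecMulVec_apply, Pi.sub_apply]
    have a12 := zero y₁ z₂ 0 4 gy₁ gz₂ (by omega) (by omega) (by omega)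
    have a13 := zero y₁ z₃ 0 5 gy₁ gz₃ (by omega) (by omega) (by omega)
    have a21 := zero y₂ z₁ 1 3 gy₂ gz₁ (by omega) (by omega) (by omega)
    have a23 := zero y₂ z₃ 1 5 gy₂ gz₃ (by omega) (by omega) (by omega)
    have a31 := zero y₃ z₁ 2 3 gy₃ gz₁ (by omega) (by omega) (by omega)
    have a32 := zero y₃ z₂ 2 4 gy₃ gz₂ (by omega) (by omega) (by omega)
    linear_combination a12 i j (Or.inl hij) - a13 i j (Or.inl hij) + a23 i j (Or.inl hij)
      - a21 i j (Or.inl hij) + a31 i j (Or.inl hij) - a32 i j (Or.inl hij)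
      + a12 j i (Or.inr hij) - a13 j i (Or.inr hij) + a23 j i (Or.inr hij)
      - a21 j i (Or.inr hij) + a31 j i (Or.inr hij) - a32 j i (Or.inr hij)
  · simp only [Matrix.mul_add, mul_vecMulVec, mulVec_sub, e₂', e₃', f₂', f₃']
    ext i j
    simp only [Matrix.add_apply, vecMulVec_apply, Pi.sub_apply, Matrix.zero_apply]
    ring
  · intro h
    have h1 := congrFun (congrFun h 0) 8
    have v1 : ∀ (y : Fin 12 → ℝ) (a : ℕ) (v : Fin 12), (∀ v, y v ≠ 0 → grp v = a) →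
        grp v ≠ a → y v = 0 := by
      intro y a v hy hv
      by_contra hne
      exact hv (hy v hne)
    simp only [Matrix.add_apply, vecMulVec_apply, Pi.sub_apply, Matrix.zero_apply] at h1
    rw [v1 y₂ 1 0 gy₂ (by decide), v1 y₃ 2 0 gy₃ (by decide), v1 z₃ 5 8 gz₃ (by decide),
      v1 y₁ 0 8 gy₁ (by decide), v1 y₂ 1 8 gy₂ (by decide), v1 y₃ 2 8 gy₃ (by decide)] at h1
    have h2 : y₁ 0 ≠ 0 := by
      rw [hy₁, one_smul, yh_fst _ _ _ _ (by decide)]
      exact hM.ne _ _ (by decide +kernel)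
    have h3 : z₂ 8 ≠ 0 := by
      rw [hz₂, Pi.smul_apply, yh_fst _ _ _ _ (by decide), smul_eq_mul]
      exact mul_ne_zero hs₂ (hM.ne _ _ (by decide +kernel))
    apply mul_ne_zero h2 h3
    linear_combination h1

end Pool.Agent.H70Z.CdV
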